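import Mathlib

/-!
# MP_68c038_an: every step-isometry on a Banach space is continuous

A bijection `T` of a Banach space `X` with `⌊‖x - y‖⌋ = ⌊‖T x - T y‖⌋` for all `x, y` is
continuous, indeed a homeomorphism.
-/

namespace Pool.Agent.Results.MP_68c038_an.StepIsometryContinuous

open Filter Topology

/-- A step-isometry: a bijection preserving the integer part of all distances. -/
def IsStepIsometry {X : Type*} [NormedAddCommGroup X] (T : X → X) : Prop :=
  Function.Bijective T ∧ ∀ x y : X, ⌊‖x - y‖⌋ = ⌊‖T x - T y‖⌋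

lemma lt_iff {X : Type*} [NormedAddCommGroup X] {T : X → X} (hT : IsStepIsometry T) (k : ℤ)
    (x y : X) : ‖x - y‖ < (k : ℝ) ↔ ‖T x - T y‖ < (k : ℝ) := by
  rw [← Int.floor_lt, ← Int.floor_lt, hT.2 x y]

/-- The consequence of completeness: functionals `g n` of norm at least one cannot all be small
against a null sequence on a whole ball. -/
lemma baire_aux {X : Type*} [NormedAddCommGroup X] [NormedSpace ℝ X] [CompleteSpace X]
    (g : ℕ → StrongDual ℝ X) (h : ℕ → X) (hh : ∀ n, ‖h n‖ ≤ 1) (hg : ∀ n, g n (h n) = 1)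
    (θ : ℕ → ℝ) (hθ : Tendsto θ atTop (𝓝 0)) (η : ℝ) (hη : 0 < η) :
    ∃ x : X, ‖x‖ < η ∧ ∃ᶠ n in atTop, θ n ≤ - g n x := by
  by_contra hcon
  push Not at hcon
  have key : ∀ x : X, ∃ p : ℕ × ℕ, ∀ n, p.1 ≤ n → - g n x ≤ ((p.2 : ℝ) + 1) * θ n := by
    intro x
    obtain ⟨k, hk⟩ := exists_nat_gt (‖x‖ / η)
    have hk0 : (0 : ℝ) < (k : ℝ) + 1 := by positivity
    have h1 : ‖((k : ℝ) + 1)⁻¹ • x‖ < η := by
      rw [norm_smul, norm_inv, Real.norm_of_nonneg hk0.le, inv_mul_lt_iff₀ hk0]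
      have : ‖x‖ < k * η := by rwa [div_lt_iff₀ hη] at hk
      nlinarith
    have h2 := hcon _ h1
    obtain ⟨m, hm⟩ := eventually_atTop.1 h2
    refine ⟨(m, k), fun n hn => ?_⟩
    have h3 := hm n hn
    rw [map_smul, smul_eq_mul] at h3
    have h4 : -((k : ℝ) + 1)⁻¹ * g n x < θ n := by linarith
    have h5 : ((k : ℝ) + 1) * (-((k : ℝ) + 1)⁻¹ * g n x) < ((k : ℝ) + 1) * θ n :=
      mul_lt_mul_of_pos_left h4 hk0
    have h6 : ((k : ℝ) + 1) * (-((k : ℝ) + 1)⁻¹ * g n x) = - g n x := by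
      field_simp
    rw [h6] at h5
    exact h5.le
  let F : ℕ × ℕ → Set X := fun p => {x | ∀ n, p.1 ≤ n → - g n x ≤ ((p.2 : ℝ) + 1) * θ n}
  have hF : ∀ p, IsClosed (F p) := by
    intro p
    have : F p = ⋂ n : ℕ, ⋂ _ : p.1 ≤ n, {x : X | - g n x ≤ ((p.2 : ℝ) + 1) * θ n} := by
      ext x; simp [F]
    rw [this]
    refine isClosed_iInter fun n => isClosed_iInter fun _ => ?_
    exact isClosed_le (by fun_prop) continuous_const
  have hU : ⋃ p, F p = Set.univ := by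
    ext x
    simp only [Set.mem_iUnion, Set.mem_univ, iff_true]
    exact key x
  obtain ⟨p, x₀, hx₀⟩ := nonempty_interior_of_iUnion_of_closed hF hU
  obtain ⟨r, hr, hball⟩ := Metric.isOpen_iff.1 isOpen_interior x₀ hx₀
  obtain ⟨q, hq⟩ := key (-x₀)
  have h7 : ∀ᶠ n in atTop, θ n * ((p.2 : ℝ) + 1 + (q.2 + 1)) < r / 2 := by
    have : Tendsto (fun n => θ n * ((p.2 : ℝ) + 1 + (q.2 + 1))) atTop (𝓝 0) := by
      simpa using hθ.mul_const ((p.2 : ℝ) + 1 + (q.2 + 1))
    exact this.eventually (gt_mem_nhds (by positivity))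
  obtain ⟨N, hN⟩ := eventually_atTop.1 h7
  let n := max N (max p.1 q.1)
  have hn1 : N ≤ n := le_max_left _ _
  have hn2 : p.1 ≤ n := (le_max_left _ _).trans (le_max_right _ _)
  have hn3 : q.1 ≤ n := (le_max_right _ _).trans (le_max_right _ _)
  have h8 : x₀ - (r / 2) • h n ∈ F p := by
    apply interior_subset
    apply hball
    rw [Metric.mem_ball, dist_eq_norm]
    have : x₀ - (r / 2) • h n - x₀ = -((r / 2) • h n) := by abel
    rw [this, norm_neg, norm_smul, Real.norm_of_nonneg (by positivity)]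
    nlinarith [hh n, norm_nonneg (h n)]
  have h9 := h8 n hn2
  rw [map_sub, map_smul, smul_eq_mul, hg n] at h9
  have h10 := hq n hn3
  rw [map_neg, neg_neg] at h10
  have h11 := hN n hn1
  nlinarith

/-- The final norm estimate. -/
lemma norm_aux {X : Type*} [NormedAddCommGroup X] [NormedSpace ℝ X] (z' z : X) (ω : ℝ)
    (hω : 0 < ω) (hω1 : ω ≤ 1) (h1 : ‖z'‖ ≤ ω + ω ^ 2 / 8) (h2 : ω - ω ^ 2 / 8 ≤ ‖z‖)
    (h3 : ‖z‖ < 1) (h4 : 2 ≤ ‖z' + (2 / ‖z‖ - 1) • z‖)
    (h5 : ‖((1 - ω / 4) / (ω + ω ^ 2 / 8)) • z' + z‖ < 1) : False := by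
  have ha : 0 < ‖z‖ := by nlinarith
  set a := ‖z‖ with ha'
  set ρ := ω ^ 2 / 8 with hρ
  have hρ0 : 0 < ρ := by positivity
  set l := (1 - ω / 4) / (ω + ρ) with hl
  have hl0 : 0 < l := by
    apply div_pos <;> nlinarith
  have hlω : l * (ω + ρ) = 1 - ω / 4 := by
    rw [hl]; field_simp
  have hwl : ω * l ≤ 1 := by nlinarith
  have hc : ω ≤ 2 / a - 1 := by
    have : 1 ≤ 1 / a := by rw [le_div_iff₀ ha]; linarith
    have h2a : 2 / a = 1 / a + 1 / a := by ring
    linarith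
  have hdec : z' + (2 / a - 1) • z = ω • (l • z' + z) + (1 - ω * l) • z' + (2 / a - 1 - ω) • z := by
    module
  have hle : ‖z' + (2 / a - 1) • z‖ ≤ ω * ‖l • z' + z‖ + (1 - ω * l) * ‖z'‖
      + (2 / a - 1 - ω) * a := by
    rw [hdec]
    refine (norm_add_le _ _).trans ?_
    refine add_le_add ((norm_add_le _ _).trans ?_) ?_
    · refine add_le_add ?_ ?_
      · rw [norm_smul, Real.norm_of_nonneg hω.le]
      · rw [norm_smul, Real.norm_of_nonneg (by linarith)]
    · rw [norm_smul, Real.norm_of_nonneg (by linarith)]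
  have hca : (2 / a - 1 - ω) * a = 2 - a - ω * a := by
    field_simp
  have h6 : (1 - ω * l) * ‖z'‖ ≤ (1 - ω * l) * (ω + ρ) :=
    mul_le_mul_of_nonneg_left h1 (by linarith)
  have h7 : (1 - ω * l) * (ω + ρ) = ω + ρ - ω * (1 - ω / 4) := by
    rw [← hlω]; ring
  have h8 : ω * ‖l • z' + z‖ < ω * 1 := mul_lt_mul_of_pos_left h5 hω
  -- 2 < ω + (ω + ρ) - ω (1 - ω/4) + 2 - a - ω a
  nlinarith

/-- Continuity at the origin. -/
lemma at_zero {X : Type*} [NormedAddCommGroup X] [NormedSpace ℝ X] [CompleteSpace X]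
    {T : X → X} (hT : IsStepIsometry T) (h0 : T 0 = 0) :
    ∀ ε > 0, ∃ η > 0, ∀ y : X, ‖y‖ < η → ‖T y‖ < ε := by
  by_contra hcon
  push Not at hcon
  obtain ⟨ε, hε, hcon⟩ := hcon
  have hlt0 : ∀ (k : ℤ) (x : X), ‖x‖ < (k : ℝ) ↔ ‖T x‖ < (k : ℝ) := by
    intro k x
    have := lt_iff hT k x 0
    simpa [h0] using this
  let C : Set ℝ := {c | ∀ η > 0, ∃ y : X, ‖y‖ < η ∧ c ≤ ‖T y‖}
  have hεC : ε ∈ C := fun η hη => hcon η hη
  have hCb : ∀ c ∈ C, c ≤ 1 := by
    intro c hc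
    obtain ⟨y, hy, hcy⟩ := hc 1 one_pos
    have := (hlt0 1 y).1 (by simpa using hy)
    simp only [Int.cast_one] at this
    linarith
  set ω := sSup C with hω
  have hbdd : BddAbove C := ⟨1, hCb⟩
  have hω0 : 0 < ω := lt_of_lt_of_le hε (le_csSup hbdd hεC)
  have hω1 : ω ≤ 1 := csSup_le ⟨ε, hεC⟩ hCb
  have hρ0 : 0 < ω ^ 2 / 8 := by positivity
  -- above `ω`
  have hup : ∃ η > 0, ∀ y : X, ‖y‖ < η → ‖T y‖ < ω + ω ^ 2 / 8 := by
    by_contra hno
    push Not at hno
    have : ω + ω ^ 2 / 8 ∈ C := fun η hη => hno η hη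
    have := le_csSup hbdd this
    linarith
  obtain ⟨η₀, hη₀, hup⟩ := hup
  -- below `ω`
  have hdown : ω - ω ^ 2 / 8 ∈ C := by
    obtain ⟨c, hc, hcω⟩ := exists_lt_of_lt_csSup ⟨ε, hεC⟩ (show ω - ω ^ 2 / 8 < sSup C by linarith)
    intro η hη
    obtain ⟨y, hy, hcy⟩ := hc η hη
    exact ⟨y, hy, by linarith⟩
  have hy : ∀ n : ℕ, ∃ y : X, ‖y‖ < min 1 (1 / ((n : ℝ) + 1)) ∧ ω - ω ^ 2 / 8 ≤ ‖T y‖ := by
    intro n
    exact hdown _ (by positivity)
  choose y hy1 hy2 using hy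
  have hz1 : ∀ n, ‖T (y n)‖ < 1 := by
    intro n
    have := (hlt0 1 (y n)).1 (by simpa using lt_of_lt_of_le (hy1 n) (min_le_left _ _))
    simpa using this
  have hz0 : ∀ n, 0 < ‖T (y n)‖ := fun n => by
    have := hy2 n
    nlinarith
  have hy0 : Tendsto (fun n => ‖y n‖) atTop (𝓝 0) := by
    refine squeeze_zero (fun n => norm_nonneg _) (fun n => ?_) tendsto_one_div_add_atTop_nhds_zero_nat
    exact ((hy1 n).trans_le (min_le_right _ _)).le
  -- the vectors `v n` and their preimages `w n`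
  let v : ℕ → X := fun n => -((2 / ‖T (y n)‖ - 1) • T (y n))
  have hv1 : ∀ n, ‖v n‖ < 2 := by
    intro n
    have h1 : 0 ≤ 2 / ‖T (y n)‖ - 1 := by
      rw [sub_nonneg, le_div_iff₀ (hz0 n)]
      linarith [hz1 n]
    simp only [v, norm_neg, norm_smul, Real.norm_of_nonneg h1]
    have : (2 / ‖T (y n)‖ - 1) * ‖T (y n)‖ = 2 - ‖T (y n)‖ := by
      have := (hz0 n).ne'
      field_simp
    rw [this]
    linarith [hz0 n]
  have hv2 : ∀ n, ‖v n - T (y n)‖ = 2 := by
    intro n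
    have h1 : v n - T (y n) = -((2 / ‖T (y n)‖) • T (y n)) := by
      simp only [v]; module
    rw [h1, norm_neg, norm_smul, Real.norm_of_nonneg (by positivity)]
    exact div_mul_cancel₀ _ (hz0 n).ne'
  have hw : ∀ n, ∃ w, T w = v n := fun n => hT.1.2 (v n)
  choose w hw using hw
  have hw1 : ∀ n, ‖w n‖ < 2 := by
    intro n
    have := (hlt0 2 (w n)).2 (by rw [hw n]; simpa using hv1 n)
    simpa using this
  have hw2 : ∀ n, 2 ≤ ‖w n - y n‖ := by
    intro n
    by_contra hlt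
    push Not at hlt
    have := (lt_iff hT 2 (w n) (y n)).1 (by simpa using hlt)
    rw [hw n, hv2 n] at this
    simp at this
  -- norming functionals
  have hg : ∀ n, ∃ g : StrongDual ℝ X, ‖g‖ ≤ 1 ∧ g (w n - y n) = ‖w n - y n‖ :=
    fun n => exists_dual_vector'' ℝ (w n - y n)
  choose g hg1 hg2 using hg
  have hgle : ∀ n x, g n x ≤ ‖x‖ := by
    intro n x
    calc g n x ≤ ‖g n x‖ := Real.le_norm_self _
      _ ≤ ‖g n‖ * ‖x‖ := (g n).le_opNorm x
      _ ≤ 1 * ‖x‖ := mul_le_mul_of_nonneg_right (hg1 n) (norm_nonneg _)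
      _ = ‖x‖ := one_mul _
  let θ : ℕ → ℝ := fun n => 2 - g n (w n)
  have hθ0 : ∀ n, 0 ≤ θ n := fun n => by
    have := (hgle n (w n)).trans_lt (hw1 n)
    simp only [θ]; linarith
  have hθ1 : ∀ n, θ n ≤ ‖y n‖ := by
    intro n
    have h1 := hg2 n
    rw [map_sub] at h1
    have h2 := hgle n (-(y n))
    rw [map_neg, norm_neg] at h2
    simp only [θ]
    linarith [hw2 n]
  have hθ : Tendsto θ atTop (𝓝 0) := squeeze_zero hθ0 hθ1 hy0
  have hpos : ∀ n, 0 < ‖w n - y n‖ := fun n => by linarith [hw2 n]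
  obtain ⟨x, hx, hfreq⟩ := baire_aux g (fun n => ‖w n - y n‖⁻¹ • (w n - y n))
    (fun n => by
      rw [norm_smul, norm_inv, norm_norm, inv_mul_cancel₀ (hpos n).ne'])
    (fun n => by
      rw [map_smul, hg2 n, smul_eq_mul, inv_mul_cancel₀ (hpos n).ne'])
    θ hθ η₀ hη₀
  have hz' : ‖T x‖ < ω + ω ^ 2 / 8 := hup x hx
  -- the fixed vector `-l • T x`
  set l := (1 - ω / 4) / (ω + ω ^ 2 / 8) with hl
  have hl0 : 0 < l := by
    apply div_pos <;> nlinarith
  have hlz : ‖-(l • T x)‖ < 1 := by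
    rw [norm_neg, norm_smul, Real.norm_of_nonneg hl0.le]
    have h1 : l * ‖T x‖ < l * (ω + ω ^ 2 / 8) := mul_lt_mul_of_pos_left hz' hl0
    have h2 : l * (ω + ω ^ 2 / 8) = 1 - ω / 4 := by rw [hl]; field_simp
    linarith
  obtain ⟨u, hu⟩ := hT.1.2 (-(l • T x))
  have hu1 : ‖u‖ < 1 := by
    have := (hlt0 1 u).2 (by rw [hu]; simpa using hlz)
    simpa using this
  have hev : ∀ᶠ n in atTop, ‖u - y n‖ < 1 := by
    have h1 : ∀ᶠ n in atTop, ‖y n‖ < 1 - ‖u‖ := hy0.eventually (gt_mem_nhds (by linarith))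
    filter_upwards [h1] with n hn
    calc ‖u - y n‖ ≤ ‖u‖ + ‖y n‖ := norm_sub_le _ _
      _ < 1 := by linarith
  have hev2 : ∀ᶠ n in atTop, ‖y n‖ < η₀ := hy0.eventually (gt_mem_nhds hη₀)
  obtain ⟨n, hn1, hn2, hn3⟩ := (hfreq.and_eventually (hev.and hev2)).exists
  have hfar : 2 ≤ ‖w n - x‖ := by
    have h1 := hgle n (w n - x)
    rw [map_sub] at h1
    simp only [θ] at hn1
    linarith
  have hfar2 : 2 ≤ ‖v n - T x‖ := by
    by_contra hlt
    push Not at hlt
    have := (lt_iff hT 2 (w n) x).2 (by rw [hw n]; simpa using hlt)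
    simp only [Int.cast_ofNat] at this
    linarith
  have hnear : ‖l • T x + T (y n)‖ < 1 := by
    have := (lt_iff hT 1 u (y n)).1 (by simpa using hn2)
    rw [hu] at this
    have h1 : -(l • T x) - T (y n) = -(l • T x + T (y n)) := by abel
    rw [h1, norm_neg] at this
    simpa using this
  refine norm_aux (T x) (T (y n)) ω hω0 hω1 hz'.le (hy2 n) (hz1 n) ?_ hnear
  have h1 : v n - T x = -(T x + (2 / ‖T (y n)‖ - 1) • T (y n)) := by
    simp only [v]; abel
  rw [h1, norm_neg] at hfar2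
  exact hfar2

lemma translate {X : Type*} [NormedAddCommGroup X] {T : X → X} (hT : IsStepIsometry T) (a : X) :
    IsStepIsometry (fun x => T (a + x) - T a) := by
  refine ⟨⟨?_, ?_⟩, ?_⟩
  · intro x y hxy
    have : T (a + x) = T (a + y) := by simpa using hxy
    simpa using hT.1.1 this
  · intro z
    obtain ⟨u, hu⟩ := hT.1.2 (z + T a)
    exact ⟨u - a, by simp [hu]⟩
  · intro x y
    have := hT.2 (a + x) (a + y)
    simpa using this

lemma continuous {X : Type*} [NormedAddCommGroup X] [NormedSpace ℝ X] [CompleteSpace X]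
    {T : X → X} (hT : IsStepIsometry T) : Continuous T := by
  rw [Metric.continuous_iff]
  intro a ε hε
  obtain ⟨η, hη, h⟩ := at_zero (translate hT a) (by simp) ε hε
  refine ⟨η, hη, fun b hb => ?_⟩
  rw [dist_eq_norm] at hb ⊢
  have := h (b - a) hb
  simpa using this

/-- Every step-isometry on a Banach space is continuous; indeed it is a homeomorphism. -/
theorem result (X : Type*) [NormedAddCommGroup X] [NormedSpace ℝ X] [CompleteSpace X]
    (T : X → X) (hT : IsStepIsometry T) : Continuous T ∧ IsHomeomorph T := by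
  refine ⟨continuous hT, ?_⟩
  let e := Equiv.ofBijective T hT.1
  have he : IsStepIsometry (e.symm : X → X) := by
    refine ⟨e.symm.bijective, fun x y => ?_⟩
    have := hT.2 (e.symm x) (e.symm y)
    rw [this]
    have h1 : ∀ z, T (e.symm z) = z := fun z => e.apply_symm_apply z
    rw [h1, h1]
  have h2 : Continuous (e : X → X) := continuous hT
  have h3 : Continuous (e.symm : X → X) := continuous he
  exact (Homeomorph.mk e h2 h3).isHomeomorph

end Pool.Agent.Results.MP_68c038_an.StepIsometryContinuous
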